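import Pool.Agent.H49.SH.Lims

/-!
# Beurling primes with the Riemann hypothesis and prescribed first occurrences of the gaps

A system of generalised primes (Beurling primes) is a sequence `1 < q 0 < q 1 < ...` of real numbers; its generalised
integers are the products `gint q n = ∏ q (k - 1)` over the prime factors of `n` (with multiplicity, the factor being the
`k`-th prime number), one for every `n ≥ 1`, counted with multiplicity; for `q = 2, 3, 5, ...` one has `gint q n = n`.

`RHSystem q` (`Pool/Agent/H49/SH/First.lean`) collects what the Riemann hypothesis and the Lindelöf hypothesis would give for the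
primes. `firstAfter q g` is the first generalised prime after a gap of length at least `g + 1`; for the primes themselves this
is the function `p(g)` of the question.

The theorem: the function `p(g)` of such a system can be prescribed up to an error `O(g)`, as soon as it increases by at
least `2 g` at each step, is at least `g ^ 4`, and has `log p(g) = o(g)`. On the logarithmic scale every nondecreasing function
between `log g` and `g` occurs, and `log p(g) / √g` can have every pair `0 ≤ a ≤ b ≤ ∞` as lower and upper limit.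
-/

set_option autoImplicit false

open Filter Topology

namespace Pool.Agent.Results.MP_926cc3_nt.BeurlingFirstOccurrences

open Pool.Agent.H49.SH

/-- (1) The first occurrences can be prescribed up to `O(g)`. (2) They can be prescribed asymptotically on the
logarithmic scale. (3) The lower and the upper limit of `log p(g) / √g` can be prescribed. -/
theorem result :
    (∀ P : ℕ → ℝ, (∀ᶠ g : ℕ in atTop, (g : ℝ) ^ 4 ≤ P g) → (∀ᶠ g : ℕ in atTop, P g + 2 * g ≤ P (g + 1)) →
      Tendsto (fun g : ℕ => Real.log (P g) / g) atTop (𝓝 0) →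
      ∃ q : ℕ → ℝ, RHSystem q ∧ (∀ g : ℕ, ∃ n, (g : ℝ) + 1 ≤ q (n + 1) - q n) ∧
        ∀ᶠ g : ℕ in atTop, P g ≤ firstAfter q g ∧ firstAfter q g ≤ P g + 2 * g) ∧
    (∀ κ : ℕ → ℝ, Monotone κ → Tendsto (fun g : ℕ => κ g / Real.log g) atTop atTop →
      Tendsto (fun g : ℕ => κ g / g) atTop (𝓝 0) →
      ∃ q : ℕ → ℝ, RHSystem q ∧ (∀ g : ℕ, ∃ n, (g : ℝ) + 1 ≤ q (n + 1) - q n) ∧
        Tendsto (fun g : ℕ => Real.log (firstAfter q g) / κ g) atTop (𝓝 1)) ∧
    ∀ a b : EReal, 0 ≤ a → a ≤ b →
      ∃ q : ℕ → ℝ, RHSystem q ∧ (∀ g : ℕ, ∃ n, (g : ℝ) + 1 ≤ q (n + 1) - q n) ∧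
        liminf (fun g : ℕ => ((Real.log (firstAfter q g) / √g : ℝ) : EReal)) atTop = a ∧
        limsup (fun g : ℕ => ((Real.log (firstAfter q g) / √g : ℝ) : EReal)) atTop = b :=
  ⟨fun _ h1 h2 h3 => prescribed h1 h2 h3, fun _ h1 h2 h3 => prescribed_log h1 h2 h3, fun _ _ h1 h2 => shanks_pair h1 h2⟩

end Pool.Agent.Results.MP_926cc3_nt.BeurlingFirstOccurrences
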