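import Pool.Agent.H49.BP.Gaps

/-!
# Beurling primes with the Riemann hypothesis, the Lindelöf hypothesis and a prescribed order of the maximal gaps

A system of generalised primes (Beurling primes) is a sequence `1 < q 0 < q 1 < ...` of real numbers; its generalised
integers are the products `gint q n = ∏ q (k - 1)` over the prime factors of `n` (with multiplicity, the factor being the
`k`-th prime number), one for every `n ≥ 1`, counted with multiplicity; for `q = 2, 3, 5, ...` one has `gint q n = n`.

`RHSystem q` collects what the Riemann hypothesis and the Lindelöf hypothesis would give for the primes, in a strong form: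
the generalised primes satisfy the prime number theorem with the error `O(√x)`, the generalised integers have a positive
density with the error `O(x ^ (1 / 2 + ε))`, and the zeta function `∑ (gint q n) ^ (-s)` is `s / (s - 1) * exp (G s)` with `G`
holomorphic in `Re s > 1 / 2` and `|G (σ + i t)| = O(√ (log (|t| + 3)))` uniformly in every half-plane `σ ≥ σ₀ > 1 / 2`; so it has
a meromorphic continuation with one simple pole and without zeros in `Re s > 1 / 2`, and there it and its reciprocal are
`O(|t| ^ ε)` for every `ε > 0`.

The theorem: under these hypotheses the maximal gaps can have every order between `log x` and `√x log x` (larger gaps are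
impossible by the error term of the prime number theorem); in particular the constant of Cramér's conjecture
can have every value in `[0, ∞]`.

Proof. Let `m u = (1 - 1 / u) / log u`; `exp ∫_1^∞ u ^ (-s) m u du = s / (s - 1)`. Cut `(1, ∞)` into slots of mass `1` and choose one
point in each slot by the method of conditional expectations for countably many exponential moments, so that
for all integers `m` the twisted sums `∑_{q ≤ x} q ^ (-i m)` differ from their means by
`O(x ^ (1 / 2 + δ) √(log (|m| + 3)))`. Then make sparse holes: the points of all the slots that meet the interval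
`(a, a + h a)` are moved to its right end. The integral of the twisted discrepancy of frequency `m` against `x ^ (-w - 1)` continues
the logarithm of the zeta function near the line of height `m` (identity theorem), with a bound that is uniform in `m`.
The generalised integers are counted by the inversion formula for Mellin transforms applied to a Riesz mean and a shift of
the line of integration.
-/

set_option autoImplicit false

open Filter Topology MeasureTheory

namespace Pool.Agent.Results.MP_ff81b6_nt.BeurlingGaps

open Pool.Agent.H49.BP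

/-- The number of generalised primes up to `x`. -/
noncomputable def primeCount (q : ℕ → ℝ) (x : ℝ) : ℕ := {j : ℕ | q j ≤ x}.ncard

/-- The number of generalised integers up to `x`, with multiplicity. -/
noncomputable def intCount (q : ℕ → ℝ) (x : ℝ) : ℕ := {n : ℕ | 1 ≤ n ∧ gint q n ≤ x}.ncard

/-- The generalised primes `q` satisfy the analogues of the Riemann hypothesis and of the Lindelöf hypothesis: they increase
strictly from `q 0 > 1`; their number up to `x` is `∫_2^x du / log u + O(√x)`; the number of the generalised integers up to `x` is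
`ρ x + O(x ^ (1 / 2 + ε))` for every `ε > 0`, with a `ρ > 0`; the zeta function is `s / (s - 1) * exp (G s)` for `Re s > 1`, with a function
`G` that is holomorphic in `Re s > 1 / 2` and at most `C √(log (|Im s| + 3))` for `Re s ≥ σ`, for every `σ > 1 / 2`. -/
def RHSystem (q : ℕ → ℝ) : Prop :=
  StrictMono q ∧ 1 < q 0 ∧
    (∃ C : ℝ, ∀ x : ℝ, 2 ≤ x → |(primeCount q x : ℝ) - ∫ u in (2 : ℝ)..x, (Real.log u)⁻¹| ≤ C * √x) ∧
    (∃ ρ : ℝ, 0 < ρ ∧ ∀ ε : ℝ, 0 < ε → ∃ C : ℝ, ∀ x : ℝ, 1 ≤ x →
      |(intCount q x : ℝ) - ρ * x| ≤ C * x ^ (1 / 2 + ε)) ∧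
    ∃ G : ℂ → ℂ, DifferentiableOn ℂ G {s | 1 / 2 < s.re} ∧
      (∀ s : ℂ, 1 < s.re → ∑' n : ℕ, ((gint q (n + 1) : ℝ) : ℂ) ^ (-s) = s / (s - 1) * Complex.exp (G s)) ∧
      ∀ σ : ℝ, 1 / 2 < σ → ∃ C : ℝ, ∀ s : ℂ, σ ≤ s.re → ‖G s‖ ≤ C * √(Real.log (|s.im| + 3))

theorem limsup_real {u : ℕ → ℝ} {l : ℝ} (h1 : ∀ ε : ℝ, 0 < ε → ∀ᶠ n in atTop, u n ≤ l + ε)
    (h2 : ∀ ε : ℝ, 0 < ε → ∃ᶠ n in atTop, l - ε ≤ u n) : limsup (fun n => (u n : EReal)) atTop = (l : EReal) := by
  refine le_antisymm ?_ ?_
  · refine le_of_forall_gt_imp_ge_of_dense fun a ha => ?_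
    obtain ⟨c, hc1, hc2⟩ := EReal.lt_iff_exists_real_btwn.1 ha
    have hc : l < c := EReal.coe_lt_coe_iff.1 hc1
    refine le_trans ?_ hc2.le
    refine limsup_le_of_le (by isBoundedDefault) ?_
    filter_upwards [h1 (c - l) (by linarith)] with n hn
    exact EReal.coe_le_coe_iff.2 (by linarith)
  · refine le_of_forall_lt_imp_le_of_dense fun a ha => ?_
    obtain ⟨c, hc1, hc2⟩ := EReal.lt_iff_exists_real_btwn.1 ha
    have hc : c < l := EReal.coe_lt_coe_iff.1 hc2
    refine hc1.le.trans ?_
    refine le_limsup_of_frequently_le ?_ (by isBoundedDefault)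
    refine (h2 (l - c) (by linarith)).mono fun n hn => ?_
    exact EReal.coe_le_coe_iff.2 (by linarith)

theorem limsup_top {u : ℕ → ℝ} (h2 : ∀ K : ℝ, ∃ᶠ n in atTop, K ≤ u n) :
    limsup (fun n => (u n : EReal)) atTop = ⊤ := by
  rw [EReal.eq_top_iff_forall_lt]
  intro K
  refine lt_of_lt_of_le (EReal.coe_lt_coe_iff.2 (show K < K + 1 by linarith)) ?_
  refine le_limsup_of_frequently_le ?_ (by isBoundedDefault)
  exact (h2 (K + 1)).mono fun n hn => EReal.coe_le_coe_iff.2 hn

/-- the system -/
theorem main {h : ℝ → ℝ} (hlim : Tendsto (fun x => h x / Real.log x) atTop atTop)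
    (hup : ∃ A : ℝ, ∀ᶠ x in atTop, h x ≤ A * √x * Real.log x) :
    ∃ q : ℕ → ℝ, RHSystem q ∧ Tendsto q atTop atTop ∧ GapLim q h := by
  obtain ⟨q', hq'1, hq'2⟩ := sample
  obtain ⟨q, B, hB, hmono, hgt, hF, hgap⟩ := system hlim hup hq'1
  have hg : ∀ j : ℕ, (j : ℝ) + 1 ≤ q j := fun j => (tt_ge j).trans (hgt j).le
  have hq0 : 1 < q 0 := by
    have := hgt 0
    rwa [tt_zero] at this
  have hD : Disc q := disc_of hmono hg hgt hB hF hq'2
  obtain ⟨G, hG1, hG2, hG3, ρ, hρ, hN⟩ := zeta hmono hg hq0 hD
  have htop : Tendsto q atTop atTop := by
    refine tendsto_atTop_mono hg ?_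
    exact tendsto_atTop_add_const_right _ _ tendsto_natCast_atTop_atTop
  refine ⟨q, ⟨hmono, hq0, primes_of hmono hg hgt hB hF, ⟨ρ, hρ, fun ε hε => ?_⟩, G, hG1, hG2, hG3⟩, htop, hgap⟩
  obtain ⟨C, hC⟩ := hN ε hε
  refine ⟨C, fun x hx => ?_⟩
  have e : intCount q x = {n : ℕ | gint q (n + 1) ≤ x}.ncard := by
    unfold intCount
    have h1 : {n : ℕ | 1 ≤ n ∧ gint q n ≤ x} = (fun n => n + 1) '' {n : ℕ | gint q (n + 1) ≤ x} := by
      ext n
      constructor
      · rintro ⟨h2, h3⟩
        refine ⟨n - 1, ?_, by simp only; omega⟩
        show gint q (n - 1 + 1) ≤ x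
        rw [Nat.sub_add_cancel h2]
        exact h3
      · rintro ⟨k, hk, rfl⟩
        exact ⟨by simp only; omega, hk⟩
    rw [h1, Set.ncard_image_of_injective _ (fun a b hab => by simpa using hab)]
  rw [e]
  exact hC x hx

theorem log_div_sqrt : ∀ᶠ x : ℝ in atTop, Real.log x ^ 2 ≤ √x := by
  have h := (isLittleO_log_rpow_rpow_atTop (2 : ℝ) (show (0 : ℝ) < 1 / 2 by norm_num)).bound one_pos
  filter_upwards [h, eventually_gt_atTop 1] with x hx h1
  rw [one_mul, Real.norm_of_nonneg (Real.rpow_nonneg (Real.log_nonneg h1.le) _),
    Real.norm_of_nonneg (Real.rpow_nonneg (by linarith) _)] at hx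
  rw [Real.sqrt_eq_rpow]
  have e : Real.log x ^ (2 : ℝ) = Real.log x ^ 2 := by
    rw [← Real.rpow_natCast]
    norm_num
  rwa [e] at hx

/-- For every function `h` with `h x / log x → ∞` and `h x = O(√x log x)` there are generalised primes with the analogues
of the Riemann hypothesis and of the Lindelöf hypothesis whose maximal gaps have exactly the order `h`. In particular the limit
superior of `(q (n + 1) - q n) / (log (q n)) ^ 2` can have every value in `[0, ∞]`. -/
theorem result :
    (∀ h : ℝ → ℝ, Tendsto (fun x => h x / Real.log x) atTop atTop →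
      (∃ A : ℝ, ∀ᶠ x in atTop, h x ≤ A * √x * Real.log x) →
        ∃ q : ℕ → ℝ, RHSystem q ∧
          limsup (fun n => (((q (n + 1) - q n) / h (q n) : ℝ) : EReal)) atTop = 1) ∧
    ∀ L : EReal, 0 ≤ L → ∃ q : ℕ → ℝ, RHSystem q ∧
      limsup (fun n => (((q (n + 1) - q n) / Real.log (q n) ^ 2 : ℝ) : EReal)) atTop = L := by
  constructor
  · intro h hlim hup
    obtain ⟨q, hq, htop, hg1, hg2⟩ := main hlim hup
    refine ⟨q, hq, ?_⟩
    have hpos : ∀ᶠ n in atTop, 0 < h (q n) := by
      have h1 : ∀ᶠ x in atTop, 0 < h x := by
        filter_upwards [hlim.eventually (eventually_gt_atTop 0), eventually_gt_atTop 1] with x h1 h2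
        have hl := Real.log_pos h2
        have := mul_pos h1 hl
        rwa [div_mul_cancel₀ _ hl.ne'] at this
      exact htop.eventually h1
    have := limsup_real (u := fun n => (q (n + 1) - q n) / h (q n)) (l := 1) (fun ε hε => by
      filter_upwards [hg1 ε hε, hpos] with n h1 h2
      rw [div_le_iff₀ h2]
      exact h1) (fun ε hε => by
      refine ((hg2 ε hε).and_eventually hpos).mono fun n hn => ?_
      rw [le_div_iff₀ hn.2]
      exact hn.1)
    rw [this]
    rfl
  · intro L hL
    -- the logarithm along a system
    have hlogtop : ∀ {q : ℕ → ℝ}, Tendsto q atTop atTop → Tendsto (fun n => Real.log (q n)) atTop atTop :=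
      fun htop => Real.tendsto_log_atTop.comp htop
    induction L using EReal.rec with
    | bot => simp at hL
    | top =>
      obtain ⟨q, hq, htop, hg1, hg2⟩ := main (h := fun x => Real.log x ^ 3) (by
        have h1 : Tendsto (fun x => Real.log x ^ 2) atTop atTop :=
          (tendsto_pow_atTop two_ne_zero).comp Real.tendsto_log_atTop
        refine h1.congr' ?_
        filter_upwards [eventually_gt_atTop 1] with x hx
        have := (Real.log_pos hx).ne'
        field_simp) ⟨1, by
        filter_upwards [log_div_sqrt, eventually_gt_atTop 1] with x h1 h2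
        have hl := Real.log_pos h2
        have := mul_le_mul_of_nonneg_right h1 hl.le
        nlinarith⟩
      refine ⟨q, hq, limsup_top fun K => ?_⟩
      have hl := hlogtop htop
      refine ((hg2 (1 / 2) (by norm_num)).and_eventually ((hl.eventually (eventually_ge_atTop (2 * |K|))).and
        (hl.eventually (eventually_gt_atTop 0)))).mono fun n hn => ?_
      obtain ⟨h1, h2, h3⟩ := hn
      rw [le_div_iff₀ (by positivity)]
      have h4 := le_abs_self K
      have h5 : K * Real.log (q n) ^ 2 ≤ |K| * Real.log (q n) ^ 2 :=
        mul_le_mul_of_nonneg_right h4 (by positivity)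
      have h6 : |K| * Real.log (q n) ^ 2 ≤ (Real.log (q n) / 2) * Real.log (q n) ^ 2 :=
        mul_le_mul_of_nonneg_right (by linarith) (by positivity)
      nlinarith
    | coe l =>
      have hl0 : 0 ≤ l := by exact_mod_cast hL
      rcases eq_or_lt_of_le hl0 with h0 | h0
      · subst h0
        obtain ⟨q, hq, htop, hg1, hg2⟩ := main (h := fun x => Real.log x * √(Real.log x)) (by
          have h1 : Tendsto (fun x => √(Real.log x)) atTop atTop :=
            Real.tendsto_sqrt_atTop.comp Real.tendsto_log_atTop
          refine h1.congr' ?_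
          filter_upwards [eventually_gt_atTop 1] with x hx
          have := (Real.log_pos hx).ne'
          field_simp) ⟨1, by
          filter_upwards [log_div_sqrt, eventually_gt_atTop (Real.exp 1)] with x h1 h2
          have hx1 : 1 < x := lt_trans (by
            have := Real.add_one_le_exp 1
            linarith) h2
          have hl : 1 ≤ Real.log x := by
            rw [Real.le_log_iff_exp_le (by linarith)]
            exact h2.le
          have h3 : √(Real.log x) ≤ Real.log x ^ 2 := by
            calc √(Real.log x) ≤ Real.log x := by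
                  rw [Real.sqrt_le_left (by linarith)]
                  nlinarith
              _ ≤ Real.log x ^ 2 := by nlinarith
          nlinarith⟩
        refine ⟨q, hq, ?_⟩
        have hl := hlogtop htop
        have := limsup_real (u := fun n => (q (n + 1) - q n) / Real.log (q n) ^ 2) (l := 0) (fun ε hε => by
          filter_upwards [hg1 1 one_pos, hl.eventually (eventually_ge_atTop ((2 / ε) ^ 2)),
            hl.eventually (eventually_gt_atTop 0)] with n h1 h2 h3
          have h4 : 2 / ε ≤ √(Real.log (q n)) := by
            rw [Real.le_sqrt' (by positivity)]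
            exact h2
          have h5 : 2 ≤ ε * √(Real.log (q n)) := by
            rw [div_le_iff₀ hε] at h4
            linarith
          have h6 : √(Real.log (q n)) * √(Real.log (q n)) = Real.log (q n) := Real.mul_self_sqrt h3.le
          rw [div_le_iff₀ (by positivity), zero_add]
          have h7 : 2 * √(Real.log (q n)) ≤ ε * Real.log (q n) := by
            calc 2 * √(Real.log (q n)) ≤ (ε * √(Real.log (q n))) * √(Real.log (q n)) :=
                  mul_le_mul_of_nonneg_right h5 (Real.sqrt_nonneg _)
              _ = ε * Real.log (q n) := by rw [mul_assoc, h6]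
          have h8 := mul_le_mul_of_nonneg_left h7 h3.le
          nlinarith) (fun ε hε => by
          refine Eventually.frequently ?_
          filter_upwards with n
          have h1 : 0 ≤ q (n + 1) - q n := sub_nonneg.2 (hq.1.monotone (Nat.le_succ n))
          have h2 : 0 ≤ (q (n + 1) - q n) / Real.log (q n) ^ 2 := by positivity
          linarith)
        rw [this]
      · obtain ⟨q, hq, htop, hg1, hg2⟩ := main (h := fun x => l * Real.log x ^ 2) (by
          have h1 : Tendsto (fun x => l * Real.log x) atTop atTop :=
            Real.tendsto_log_atTop.const_mul_atTop h0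
          refine h1.congr' ?_
          filter_upwards [eventually_gt_atTop 1] with x hx
          have := (Real.log_pos hx).ne'
          field_simp) ⟨l, by
          filter_upwards [log_div_sqrt, eventually_gt_atTop (Real.exp 1)] with x h1 h2
          have hx1 : 1 < x := lt_trans (by
            have := Real.add_one_le_exp 1
            linarith) h2
          have hl : 1 ≤ Real.log x := by
            rw [Real.le_log_iff_exp_le (by linarith)]
            exact h2.le
          have h3 : Real.log x ^ 2 ≤ √x * Real.log x := by
            calc Real.log x ^ 2 ≤ √x := h1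
              _ ≤ √x * Real.log x := le_mul_of_one_le_right (Real.sqrt_nonneg _) hl
          rw [mul_assoc]
          exact mul_le_mul_of_nonneg_left h3 h0.le⟩
        refine ⟨q, hq, ?_⟩
        have hl := hlogtop htop
        refine limsup_real (fun ε hε => ?_) (fun ε hε => ?_)
        · filter_upwards [hg1 (ε / l) (by positivity), hl.eventually (eventually_gt_atTop 0)] with n h1 h3
          rw [div_le_iff₀ (by positivity)]
          refine h1.trans (le_of_eq ?_)
          field_simp
        · refine ((hg2 (ε / l) (by positivity)).and_eventually (hl.eventually (eventually_gt_atTop 0))).mono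
            fun n hn => ?_
          obtain ⟨h1, h3⟩ := hn
          rw [le_div_iff₀ (by positivity)]
          refine le_trans (le_of_eq ?_) h1
          field_simp

end Pool.Agent.Results.MP_ff81b6_nt.BeurlingGaps
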