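import Pool.Agent.H49.BZ.Ord

/-!
# Beurling primes with the Riemann hypothesis whose zeros have ordinates in a prescribed dense set

A system of generalised primes (Beurling primes) is a sequence `1 < q 0 < q 1 < ...` of real numbers; its generalised
integers are the products `gint q n = ∏ q (k - 1)` over the prime factors of `n` (with multiplicity, the factor being the
`k`-th prime number), one for every `n ≥ 1`, counted with multiplicity; for `q = 2, 3, 5, ...` one has `gint q n = n` and the
zeta function is the Riemann zeta function.

`RHSystem q Z` (`Pool/Agent/H49/BZ/Final.lean`) collects what the Riemann hypothesis and the Lindelöf hypothesis would give for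
the primes; `RegularZeros Z` (`Pool/Agent/H49/BZ/Ord.lean`) says that the zeros in `Re s > 1 / 3` are simple, lie on the critical
line and follow the Riemann-von Mangoldt formula. The theorem: all this is compatible with every behaviour of the
ordinates with respect to algebraic relations: the ordinates can all lie in any given dense set, for example be rational
numbers, and they can be algebraically independent.
-/

set_option autoImplicit false

open Filter Topology

namespace Pool.Agent.Results.MP_ec260d_nt.BeurlingOrdinates

open Pool.Agent.H49.BZ

/-- (1) For every dense set `A` of real numbers there are generalised primes with the analogues of the Riemann hypothesis, of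
the Lindelöf hypothesis and of the Riemann-von Mangoldt formula, with simple zeros, all whose positive ordinates are in `A`.
(2) They can all be rational. (3) They can be algebraically independent over the rational numbers. -/
theorem result :
    (∀ A : Set ℝ, Dense A → ∃ (q : ℕ → ℝ) (Z : ℂ → ℂ), RHSystem q Z ∧ RegularZeros Z ∧ ordinates Z ⊆ A) ∧
    (∃ (q : ℕ → ℝ) (Z : ℂ → ℂ), RHSystem q Z ∧ RegularZeros Z ∧ ∀ t ∈ ordinates Z, ∃ r : ℚ, t = r) ∧
    ∃ (q : ℕ → ℝ) (Z : ℂ → ℂ), RHSystem q Z ∧ RegularZeros Z ∧
      AlgebraicIndependent ℚ (fun t : ordinates Z => (t : ℝ)) := by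
  refine ⟨fun A hA => dense_system hA, ?_, ?_⟩
  · obtain ⟨q, Z, h1, h2, h3⟩ := dense_system (A := Set.range ((↑) : ℚ → ℝ)) Rat.denseRange_cast
    refine ⟨q, Z, h1, h2, fun t ht => ?_⟩
    obtain ⟨r, hr⟩ := h3 ht
    exact ⟨r, hr.symm⟩
  · obtain ⟨γ, hγ, hi⟩ := exists_indep_between
    obtain ⟨q, Z, h1, h2, h3⟩ := between_system hγ
    refine ⟨q, Z, h1, h2, ?_⟩
    rw [h3]
    exact hi.to_subtype_range

end Pool.Agent.Results.MP_ec260d_nt.BeurlingOrdinates
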